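import Mathlib

/-!
# The least minimiser of a submodular function of subspaces is invariant

Let `E` be a nonnegative submodular function with finitely many values on the subspaces of a
rational vector space `V`, invariant under a family of linear automorphisms.  Among the
finite-dimensional subspaces which minimise `E W + dim W` there is a least one; it is invariant.
-/

set_option autoImplicit false

namespace H693.EQ

theorem exists_inv_min {V : Type*} [AddCommGroup V] [Module ℚ V] (E : Submodule ℚ V → ℝ)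
    (hE0 : ∀ W, 0 ≤ E W) (hfin : (Set.range E).Finite)
    (hsub : ∀ W W', E (W ⊓ W') + E (W ⊔ W') ≤ E W + E W')
    {I : Type*} (ρ : I → V ≃ₗ[ℚ] V) (hinv : ∀ g W, E (W.map (ρ g : V →ₗ[ℚ] V)) = E W)
    (V0 : Submodule ℚ V) (hV0 : FiniteDimensional ℚ V0) :
    ∃ W : Submodule ℚ V, FiniteDimensional ℚ W ∧ (∀ g, W.map (ρ g : V →ₗ[ℚ] V) = W) ∧
      E W + (Module.finrank ℚ W : ℝ) ≤ E V0 + (Module.finrank ℚ V0 : ℝ) := by
  classical
  set Φ : Submodule ℚ V → ℝ := fun W => E W + (Module.finrank ℚ W : ℝ) with hΦ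
  obtain ⟨N, hN⟩ := exists_nat_ge (Φ V0)
  set T : Set ℝ := {x | ∃ W : Submodule ℚ V, FiniteDimensional ℚ W ∧ Φ W = x ∧ x ≤ Φ V0} with hT
  have hTfin : T.Finite := by
    have h1 : ((Set.range E).image2 (fun e (n : ℕ) => e + (n : ℝ)) (Set.Iic N)).Finite :=
      Set.Finite.image2 _ hfin (Set.finite_Iic N)
    refine h1.subset ?_
    rintro x ⟨W, hW, hx, hxle⟩
    refine ⟨E W, ⟨W, rfl⟩, Module.finrank ℚ W, ?_, hx⟩
    have h2 : (Module.finrank ℚ W : ℝ) ≤ N := by
      have := hE0 W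
      have h3 : Φ W ≤ Φ V0 := hx.trans_le hxle
      simp only [hΦ] at h3 hN
      linarith
    exact_mod_cast h2
  have hTne : T.Nonempty := ⟨Φ V0, V0, hV0, rfl, le_rfl⟩
  obtain ⟨m, ⟨W', hW', hmW, hm0⟩, hmin⟩ := Set.exists_min_image T id hTfin hTne
  have hmin' : ∀ W : Submodule ℚ V, FiniteDimensional ℚ W → m ≤ Φ W := by
    intro W hW
    by_cases h : Φ W ≤ Φ V0
    · exact hmin (Φ W) ⟨W, hW, rfl, h⟩
    · push Not at h
      linarith
  have hex : ∃ n : ℕ, ∃ W : Submodule ℚ V, FiniteDimensional ℚ W ∧ Φ W = m ∧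
      Module.finrank ℚ W = n := ⟨_, W', hW', hmW, rfl⟩
  obtain ⟨W0, hW0, hΦ0, hn0⟩ := Nat.find_spec hex
  have hleast : ∀ W : Submodule ℚ V, FiniteDimensional ℚ W → Φ W = m →
      Module.finrank ℚ W0 ≤ Module.finrank ℚ W := by
    intro W hW hWm
    rw [hn0]
    exact Nat.find_min' hex ⟨W, hW, hWm, rfl⟩
  refine ⟨W0, hW0, ?_, ?_⟩
  · intro g
    set W1 : Submodule ℚ V := W0.map (ρ g : V →ₗ[ℚ] V) with hW1
    have hfd1 : FiniteDimensional ℚ W1 := inferInstance
    have hrank : Module.finrank ℚ W1 = Module.finrank ℚ W0 := LinearEquiv.finrank_map_eq (ρ g) W0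
    have hΦ1 : Φ W1 = m := by
      rw [← hΦ0]
      simp only [hΦ]
      rw [hinv g W0, hrank]
    have h2 : Φ (W0 ⊓ W1) + Φ (W0 ⊔ W1) ≤ Φ W0 + Φ W1 := by
      have h3 := hsub W0 W1
      have h4 := Submodule.finrank_sup_add_finrank_inf_eq W0 W1
      have h5 : (Module.finrank ℚ ↥(W0 ⊔ W1) : ℝ) + Module.finrank ℚ ↥(W0 ⊓ W1) =
          Module.finrank ℚ W0 + Module.finrank ℚ W1 := by exact_mod_cast h4
      simp only [hΦ]
      linarith
    have hfd2 : FiniteDimensional ℚ ↥(W0 ⊓ W1) :=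
      Submodule.finiteDimensional_of_le inf_le_left
    have hfd3 : FiniteDimensional ℚ ↥(W0 ⊔ W1) := inferInstance
    have h6 := hmin' _ hfd2
    have h7 := hmin' _ hfd3
    have h8 : Φ (W0 ⊓ W1) = m := by linarith
    have h9 := hleast _ hfd2 h8
    have h10 : W0 ⊓ W1 = W0 := Submodule.eq_of_le_of_finrank_le inf_le_left h9
    have h11 : W0 ≤ W1 := inf_eq_left.1 h10
    exact (Submodule.eq_of_le_of_finrank_le h11 hrank.le).symm
  · have : Φ W0 ≤ Φ V0 := by rw [hΦ0]; exact hm0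
    simpa only [hΦ] using this

end H693.EQ
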