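import Pool.Agent.H693.EQ.Ent
import Pool.Agent.H693.EQ.Min

/-!
# Averaging over a group

`Γ` is an abelian group with a homomorphism `ι` to a rational vector space `V` on which a group
`G` acts.  If all the differences of the elements of a finite set `A` have stabilisers of finite
index, then the entropy of `A` modulo subspaces can be averaged over `G`, and the least minimiser
is an invariant subspace.
-/

set_option autoImplicit false
open Finset
open scoped Classical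

namespace H693.EQ

variable {Γ : Type*} [AddCommGroup Γ] {G : Type*} [Group G] {V : Type*} [AddCommGroup V]
  [Module ℚ V]

/-- the stabiliser of a vector -/
def stab (ρ : G →* (V ≃ₗ[ℚ] V)) (v : V) : Subgroup G :=
  (MulAction.stabilizer (V ≃ₗ[ℚ] V) v).comap ρ

theorem mem_stab (ρ : G →* (V ≃ₗ[ℚ] V)) (v : V) (g : G) : g ∈ stab ρ v ↔ ρ g v = v := by
  unfold stab
  rw [Subgroup.mem_comap, MulAction.mem_stabilizer_iff]
  rfl

/-- `a` and `b` are in the same coset of (the preimage of) `W`, after the application of `g` -/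
def rel (ρ : G →* (V ≃ₗ[ℚ] V)) (ι : Γ →+ V) (g : G) (W : Submodule ℚ V) (a b : Γ) : Prop :=
  ρ g (ι b - ι a) ∈ W

theorem rel_equiv (ρ : G →* (V ≃ₗ[ℚ] V)) (ι : Γ →+ V) (g : G) (W : Submodule ℚ V) :
    Equivalence (rel ρ ι g W) := by
  refine ⟨fun a => ?_, fun {a b} h => ?_, fun {a b c} h h' => ?_⟩
  · unfold rel; simp
  · unfold rel at *
    have : ι a - ι b = -(ι b - ι a) := by abel
    rw [this, map_neg]
    exact W.neg_mem h
  · unfold rel at *
    have : ι c - ι a = (ι c - ι b) + (ι b - ι a) := by abel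
    rw [this, map_add]
    exact W.add_mem h' h

theorem rel_map (ρ : G →* (V ≃ₗ[ℚ] V)) (ι : Γ →+ V) (g h : G) (W : Submodule ℚ V) :
    rel ρ ι g (W.map (ρ h : V →ₗ[ℚ] V)) = rel ρ ι (h⁻¹ * g) W := by
  funext a b
  apply propext
  unfold rel
  rw [map_mul, map_inv]
  constructor
  · rintro ⟨w, hw, hw'⟩
    have h1 : (ρ h)⁻¹ (ρ g (ι b - ι a)) = w := by
      rw [← hw']
      exact LinearEquiv.symm_apply_apply (ρ h) w
    change (ρ h)⁻¹ (ρ g (ι b - ι a)) ∈ W
    rw [h1]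
    exact hw
  · intro h1
    refine ⟨(ρ h)⁻¹ (ρ g (ι b - ι a)), h1, ?_⟩
    exact LinearEquiv.apply_symm_apply (ρ h) _

theorem rel_inf (ρ : G →* (V ≃ₗ[ℚ] V)) (ι : Γ →+ V) (g : G) (W W' : Submodule ℚ V) :
    rel ρ ι g (W ⊓ W') = fun a b => rel ρ ι g W a b ∧ rel ρ ι g W' a b := rfl

theorem exists_inv (ρ : G →* (V ≃ₗ[ℚ] V)) (ι : Γ →+ V) (A : Finset Γ) (hA : A.Nonempty)
    (hst : ∀ a ∈ A, ∀ b ∈ A, (stab ρ (ι b - ι a)).FiniteIndex)
    (V0 : Submodule ℚ V) (hV0 : FiniteDimensional ℚ V0) (L : ℝ)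
    (hL : ∀ g, ent A (rel ρ ι g V0) ≤ L) :
    ∃ W : Submodule ℚ V, FiniteDimensional ℚ W ∧ (∀ g, W.map (ρ g : V →ₗ[ℚ] V) = W) ∧
      ent A (rel ρ ι 1 W) + (Module.finrank ℚ W : ℝ) ≤ L + (Module.finrank ℚ V0 : ℝ) := by
  -- the subgroup of finite index fixing all differences
  set N : Subgroup G := ⨅ p : A × A, stab ρ (ι (p.2 : Γ) - ι (p.1 : Γ)) with hN
  have hNfi : N.FiniteIndex := by
    have : ∀ p : A × A, (stab ρ (ι (p.2 : Γ) - ι (p.1 : Γ))).FiniteIndex :=
      fun p => hst _ p.1.2 _ p.2.2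
    exact Subgroup.finiteIndex_iInf this
  have : Fintype (G ⧸ N) := Subgroup.fintypeQuotientOfFiniteIndex
  have hNfix : ∀ n ∈ N, ∀ a ∈ A, ∀ b ∈ A, ρ n (ι b - ι a) = ι b - ι a := by
    intro n hn a ha b hb
    have h1 : n ∈ stab ρ (ι b - ι a) := (Subgroup.mem_iInf.1 hn) (⟨a, ha⟩, ⟨b, hb⟩)
    exact (mem_stab ρ _ n).1 h1
  set F : G → Submodule ℚ V → ℝ := fun g W => ent A (rel ρ ι g W) with hF
  have hcl : ∀ (g n : G), n ∈ N → ∀ W, ∀ a ∈ A, cl A (rel ρ ι (g * n) W) a =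
      cl A (rel ρ ι g W) a := by
    intro g n hn W a ha
    unfold cl
    congr 1
    apply Finset.filter_congr
    intro b hb
    unfold rel
    rw [map_mul, LinearEquiv.mul_apply, hNfix n hn a ha b hb]
  have hFN : ∀ (g n : G), n ∈ N → ∀ W, F (g * n) W = F g W := by
    intro g n hn W
    simp only [hF]
    unfold ent
    congr 1
    refine Finset.sum_congr rfl (fun a ha => ?_)
    rw [hcl g n hn W a ha]
  have hFout : ∀ (g : G) (W : Submodule ℚ V), F ((g : G ⧸ N).out) W = F g W := by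
    intro g W
    obtain ⟨n, hn⟩ := QuotientGroup.mk_out_eq_mul N g
    rw [hn]
    exact hFN g n n.2 W
  have hFmap : ∀ g h W, F g (W.map (ρ h : V →ₗ[ℚ] V)) = F (h⁻¹ * g) W := by
    intro g h W
    simp only [hF]
    rw [rel_map]
  set E : Submodule ℚ V → ℝ := fun W => (∑ q : G ⧸ N, F q.out W) / (Fintype.card (G ⧸ N) : ℝ)
    with hE
  have hcardpos : (0 : ℝ) < (Fintype.card (G ⧸ N) : ℝ) := by
    have : Nonempty (G ⧸ N) := ⟨((1 : G) : G ⧸ N)⟩
    exact_mod_cast Fintype.card_pos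
  have hE0 : ∀ W, 0 ≤ E W := by
    intro W
    apply div_nonneg _ hcardpos.le
    exact Finset.sum_nonneg (fun q _ => ent_nonneg (rel_equiv ρ ι _ W))
  have hEfin : (Set.range E).Finite := by
    set dec : ((G ⧸ N) × A → Fin (A.card + 1)) → ℝ := fun c =>
      (∑ q : G ⧸ N, (∑ a : A, (Real.log A.card - Real.log ((c (q, a) : ℕ) : ℝ))) / A.card) /
        (Fintype.card (G ⧸ N) : ℝ) with hdec
    have h1 : (Set.range dec).Finite := Set.finite_range dec
    refine h1.subset ?_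
    rintro x ⟨W, rfl⟩
    refine ⟨fun p => ⟨cl A (rel ρ ι p.1.out W) (p.2 : Γ),
      Nat.lt_succ_of_le (cl_le A _ _)⟩, ?_⟩
    simp only [hdec, hE, hF]
    congr 1
    refine Finset.sum_congr rfl (fun q _ => ?_)
    unfold ent
    congr 1
    rw [← Finset.sum_coe_sort A (fun a => Real.log A.card - Real.log (cl A (rel ρ ι q.out W) a))]
  have hEsub : ∀ W W', E (W ⊓ W') + E (W ⊔ W') ≤ E W + E W' := by
    intro W W'
    simp only [hE]
    rw [← add_div, ← add_div, div_le_div_iff_of_pos_right hcardpos, ← Finset.sum_add_distrib,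
      ← Finset.sum_add_distrib]
    refine Finset.sum_le_sum (fun q _ => ?_)
    simp only [hF]
    rw [rel_inf]
    apply ent_submod (rel_equiv ρ ι _ W) (rel_equiv ρ ι _ W') (rel_equiv ρ ι _ (W ⊔ W'))
    · intro a b h
      exact (le_sup_left : W ≤ W ⊔ W') h
    · intro a b h
      exact (le_sup_right : W' ≤ W ⊔ W') h
  have hEinv : ∀ h W, E (W.map (ρ h : V →ₗ[ℚ] V)) = E W := by
    intro h W
    simp only [hE]
    congr 1
    calc ∑ q : G ⧸ N, F q.out (W.map (ρ h : V →ₗ[ℚ] V))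
        = ∑ q : G ⧸ N, F ((h⁻¹ • q : G ⧸ N).out) W := by
          refine Finset.sum_congr rfl (fun q _ => ?_)
          rw [hFmap, ← hFout (h⁻¹ * q.out) W]
          congr 2
          have h2 : ((h⁻¹ * q.out : G) : G ⧸ N) = h⁻¹ • ((q.out : G) : G ⧸ N) := rfl
          rw [h2, QuotientGroup.out_eq']
      _ = ∑ q : G ⧸ N, F q.out W :=
          Equiv.sum_comp (MulAction.toPerm h⁻¹ : Equiv.Perm (G ⧸ N)) (fun q => F q.out W)
  obtain ⟨W, hWfd, hWinv, hWle⟩ := exists_inv_min E hE0 hEfin hEsub (fun g => ρ g) hEinv V0 hV0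
  refine ⟨W, hWfd, hWinv, ?_⟩
  have h3 : ∀ g, F g W = F 1 W := by
    intro g
    have h4 := hFmap g g W
    rw [hWinv g, inv_mul_cancel] at h4
    exact h4
  have h5 : E W = F 1 W := by
    simp only [hE]
    rw [Finset.sum_congr rfl (fun q _ => h3 q.out), Finset.sum_const, Finset.card_univ,
      nsmul_eq_mul]
    field_simp
  have h6 : E V0 ≤ L := by
    simp only [hE]
    rw [div_le_iff₀ hcardpos]
    calc ∑ q : G ⧸ N, F q.out V0 ≤ ∑ _q : G ⧸ N, L := Finset.sum_le_sum (fun q _ => hL _)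
      _ = L * (Fintype.card (G ⧸ N) : ℝ) := by
        rw [Finset.sum_const, Finset.card_univ, nsmul_eq_mul, mul_comm]
  have h7 : E W + (Module.finrank ℚ W : ℝ) ≤ E V0 + (Module.finrank ℚ V0 : ℝ) := hWle
  rw [h5] at h7
  change F 1 W + _ ≤ _
  linarith

end H693.EQ
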