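import Mathlib

/-!
# Entropy of the classes of an equivalence relation on a finite set

`cl A r a` is the number of the elements of `A` equivalent to `a`, and `ent A r` is the Shannon
entropy of the class of a uniformly distributed element of `A`.
-/

set_option autoImplicit false
open Finset
open scoped Classical

namespace H693.EQ

variable {α β : Type*}

/-- number of the elements of `A` which are related to `a` -/
noncomputable def cl (A : Finset α) (r : α → α → Prop) (a : α) : ℕ :=
  (A.filter (fun b => r a b)).card

/-- entropy of the class of a uniformly distributed element of `A` -/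
noncomputable def ent (A : Finset α) (r : α → α → Prop) : ℝ :=
  (∑ a ∈ A, (Real.log A.card - Real.log (cl A r a))) / A.card

theorem cl_pos {A : Finset α} {r : α → α → Prop} (hr : Equivalence r) {a : α} (ha : a ∈ A) :
    0 < cl A r a :=
  Finset.card_pos.2 ⟨a, by simp [ha, hr.refl a]⟩

theorem cl_le (A : Finset α) (r : α → α → Prop) (a : α) : cl A r a ≤ A.card :=
  Finset.card_filter_le _ _

theorem cl_congr {A : Finset α} {r : α → α → Prop} (hr : Equivalence r) {a b : α} (h : r a b) :
    cl A r a = cl A r b := by
  unfold cl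
  congr 1
  apply Finset.filter_congr
  intro c _
  exact ⟨fun h' => hr.trans (hr.symm h) h', fun h' => hr.trans h h'⟩

theorem cl_mono {A : Finset α} {r s : α → α → Prop} (h : ∀ a b, r a b → s a b) (a : α) :
    cl A r a ≤ cl A s a := by
  apply Finset.card_le_card
  intro b hb
  rw [Finset.mem_filter] at hb ⊢
  exact ⟨hb.1, h _ _ hb.2⟩

theorem ent_nonneg {A : Finset α} {r : α → α → Prop} (hr : Equivalence r) : 0 ≤ ent A r := by
  unfold ent
  apply div_nonneg _ (by positivity)
  apply Finset.sum_nonneg
  intro a ha
  have h1 : (0 : ℝ) < cl A r a := by exact_mod_cast cl_pos hr ha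
  have h2 : (cl A r a : ℝ) ≤ A.card := by exact_mod_cast cl_le A r a
  have := Real.log_le_log h1 h2
  linarith

/-- the key inequality behind submodularity -/
theorem key_ineq {A : Finset α} {r s y : α → α → Prop} (hr : Equivalence r) (hs : Equivalence s)
    (hy : Equivalence y) (hry : ∀ a b, r a b → y a b) (hsy : ∀ a b, s a b → y a b) :
    ∑ a ∈ A, ((cl A r a : ℝ) * cl A s a) / (cl A (fun a b => r a b ∧ s a b) a * cl A y a) ≤
      A.card := by
  set t : α → α → Prop := fun a b => r a b ∧ s a b with ht
  have htE : Equivalence t :=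
    ⟨fun a => ⟨hr.refl a, hs.refl a⟩, fun h => ⟨hr.symm h.1, hs.symm h.2⟩,
      fun h h' => ⟨hr.trans h.1 h'.1, hs.trans h.2 h'.2⟩⟩
  have e1 : ∀ a, ((cl A r a : ℝ) * cl A s a) =
      ∑ b ∈ A, ∑ c ∈ A, (if r a b ∧ s a c then (1 : ℝ) else 0) := by
    intro a
    unfold cl
    rw [Finset.card_filter, Finset.card_filter]
    push_cast
    rw [Finset.sum_mul_sum]
    refine Finset.sum_congr rfl (fun b _ => Finset.sum_congr rfl (fun c _ => ?_))
    by_cases h1 : r a b <;> by_cases h2 : s a c <;> simp [h1, h2]
  calc ∑ a ∈ A, ((cl A r a : ℝ) * cl A s a) / (cl A t a * cl A y a)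
      = ∑ a ∈ A, ∑ b ∈ A, ∑ c ∈ A,
          (if r a b ∧ s a c then (1 : ℝ) / (cl A t a * cl A y a) else 0) := by
        refine Finset.sum_congr rfl (fun a _ => ?_)
        rw [e1, Finset.sum_div]
        refine Finset.sum_congr rfl (fun b _ => ?_)
        rw [Finset.sum_div]
        refine Finset.sum_congr rfl (fun c _ => ?_)
        split_ifs <;> simp
    _ = ∑ b ∈ A, ∑ c ∈ A, ∑ a ∈ A,
          (if r a b ∧ s a c then (1 : ℝ) / (cl A t a * cl A y a) else 0) := by
        rw [Finset.sum_comm]
        refine Finset.sum_congr rfl (fun b _ => ?_)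
        rw [Finset.sum_comm]
    _ ≤ ∑ b ∈ A, ∑ c ∈ A, (if y b c then (1 : ℝ) / cl A y b else 0) := by
        refine Finset.sum_le_sum (fun b hb => Finset.sum_le_sum (fun c hc => ?_))
        by_cases hex : ∃ a0 ∈ A, r a0 b ∧ s a0 c
        · obtain ⟨a0, ha0, h1, h2⟩ := hex
          have hyb : y a0 b := hry _ _ h1
          have hyc : y a0 c := hsy _ _ h2
          rw [if_pos (hy.trans (hy.symm hyb) hyc), ← cl_congr hy hyb]
          have hpt : (0 : ℝ) < cl A t a0 := by exact_mod_cast cl_pos htE ha0
          have hpy : (0 : ℝ) < cl A y a0 := by exact_mod_cast cl_pos hy ha0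
          calc ∑ a ∈ A, (if r a b ∧ s a c then (1 : ℝ) / (cl A t a * cl A y a) else 0)
              = ∑ a ∈ A.filter (fun a => t a0 a), (1 : ℝ) / (cl A t a0 * cl A y a0) := by
                rw [Finset.sum_filter]
                refine Finset.sum_congr rfl (fun a _ => ?_)
                by_cases h3 : t a0 a
                · have h4 : r a b ∧ s a c :=
                    ⟨hr.trans (hr.symm h3.1) h1, hs.trans (hs.symm h3.2) h2⟩
                  rw [if_pos h4, if_pos h3, ← cl_congr htE h3, ← cl_congr hy (hry _ _ h3.1)]
                · have h4 : ¬ (r a b ∧ s a c) := by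
                    intro h5
                    exact h3 ⟨hr.trans h1 (hr.symm h5.1), hs.trans h2 (hs.symm h5.2)⟩
                  rw [if_neg h4, if_neg h3]
            _ = (cl A t a0 : ℝ) * (1 / (cl A t a0 * cl A y a0)) := by
                rw [Finset.sum_const, nsmul_eq_mul]
                have h7 : (A.filter (fun a => t a0 a)).card = cl A t a0 := by
                  unfold cl; congr
                rw [h7]
            _ = 1 / cl A y a0 := by field_simp
            _ ≤ 1 / cl A y a0 := le_rfl
        · have h0 : ∑ a ∈ A, (if r a b ∧ s a c then (1 : ℝ) / (cl A t a * cl A y a) else 0) = 0 := by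
            apply Finset.sum_eq_zero
            intro a ha
            rw [if_neg]
            intro h
            exact hex ⟨a, ha, h⟩
          rw [h0]
          split_ifs <;> positivity
    _ = ∑ b ∈ A, (1 : ℝ) := by
        refine Finset.sum_congr rfl (fun b hb => ?_)
        rw [← Finset.sum_filter, Finset.sum_const, nsmul_eq_mul]
        have hpy : (0 : ℝ) < cl A y b := by exact_mod_cast cl_pos hy hb
        have : (((A.filter (fun c => y b c)).card : ℕ) : ℝ) = cl A y b := rfl
        rw [this]
        field_simp
    _ = A.card := by simp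

/-- submodularity of the entropy -/
theorem ent_submod {A : Finset α} {r s y : α → α → Prop} (hr : Equivalence r)
    (hs : Equivalence s) (hy : Equivalence y) (hry : ∀ a b, r a b → y a b)
    (hsy : ∀ a b, s a b → y a b) :
    ent A (fun a b => r a b ∧ s a b) + ent A y ≤ ent A r + ent A s := by
  set t : α → α → Prop := fun a b => r a b ∧ s a b with ht
  have htE : Equivalence t :=
    ⟨fun a => ⟨hr.refl a, hs.refl a⟩, fun h => ⟨hr.symm h.1, hs.symm h.2⟩,
      fun h h' => ⟨hr.trans h.1 h'.1, hs.trans h.2 h'.2⟩⟩
  rcases A.eq_empty_or_nonempty with hA | hA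
  · subst hA; simp [ent]
  have hApos : (0 : ℝ) < A.card := by exact_mod_cast hA.card_pos
  unfold ent
  rw [← add_div, ← add_div, div_le_div_iff_of_pos_right hApos, ← Finset.sum_add_distrib,
    ← Finset.sum_add_distrib, ← sub_nonneg, ← Finset.sum_sub_distrib]
  have hkey := key_ineq (A := A) hr hs hy hry hsy
  have h1 : ∀ a ∈ A, 1 - ((cl A r a : ℝ) * cl A s a) / (cl A t a * cl A y a) ≤
      (Real.log A.card - Real.log (cl A r a) + (Real.log A.card - Real.log (cl A s a))) -
      (Real.log A.card - Real.log (cl A t a) + (Real.log A.card - Real.log (cl A y a))) := by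
    intro a ha
    have hpr : (0 : ℝ) < cl A r a := by exact_mod_cast cl_pos hr ha
    have hps : (0 : ℝ) < cl A s a := by exact_mod_cast cl_pos hs ha
    have hpt : (0 : ℝ) < cl A t a := by exact_mod_cast cl_pos htE ha
    have hpy : (0 : ℝ) < cl A y a := by exact_mod_cast cl_pos hy ha
    have h2 := Real.one_sub_inv_le_log_of_pos
      (x := (cl A t a * cl A y a : ℝ) / (cl A r a * cl A s a)) (by positivity)
    rw [inv_div, Real.log_div (by positivity) (by positivity),
      Real.log_mul hpt.ne' hpy.ne', Real.log_mul hpr.ne' hps.ne'] at h2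
    linarith
  have h3 := Finset.sum_le_sum h1
  have h4 : ∑ a ∈ A, (1 - ((cl A r a : ℝ) * cl A s a) / (cl A t a * cl A y a)) =
      A.card - ∑ a ∈ A, ((cl A r a : ℝ) * cl A s a) / (cl A t a * cl A y a) := by
    rw [Finset.sum_sub_distrib]; simp
  rw [h4] at h3
  linarith

/-- the entropy is at most the logarithm of the number of labels -/
theorem ent_le_log {A : Finset α} {r : α → α → Prop} (hr : Equivalence r) (hA : A.Nonempty)
    (M : Finset β) (c : α → β) (hc : ∀ a ∈ A, c a ∈ M)
    (hcr : ∀ a ∈ A, ∀ b ∈ A, c a = c b → r a b) : ent A r ≤ Real.log M.card := by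
  have hApos : (0 : ℝ) < A.card := by exact_mod_cast hA.card_pos
  obtain ⟨a0, ha0⟩ := hA
  have hMpos : (0 : ℝ) < M.card := by exact_mod_cast Finset.card_pos.2 ⟨_, hc a0 ha0⟩
  have h1 : ∑ a ∈ A, (1 : ℝ) / cl A r a ≤ M.card := by
    calc ∑ a ∈ A, (1 : ℝ) / cl A r a
        ≤ ∑ a ∈ A, (1 : ℝ) / (A.filter (fun b => c b = c a)).card := by
          refine Finset.sum_le_sum (fun a ha => ?_)
          have h2 : 0 < (A.filter (fun b => c b = c a)).card :=
            Finset.card_pos.2 ⟨a, by simp [ha]⟩
          have h3 : (A.filter (fun b => c b = c a)).card ≤ cl A r a := by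
            apply Finset.card_le_card
            intro b hb
            rw [Finset.mem_filter] at hb ⊢
            exact ⟨hb.1, hcr a ha b hb.1 hb.2.symm⟩
          have h2' : (0 : ℝ) < ((A.filter (fun b => c b = c a)).card : ℝ) := by exact_mod_cast h2
          exact one_div_le_one_div_of_le h2' (by exact_mod_cast h3)
      _ = ∑ m ∈ M, ∑ a ∈ A.filter (fun a => c a = m),
            (1 : ℝ) / (A.filter (fun b => c b = c a)).card := by
          rw [Finset.sum_fiberwise_of_maps_to hc]
      _ ≤ ∑ m ∈ M, (1 : ℝ) := by
          refine Finset.sum_le_sum (fun m _ => ?_)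
          have h5 : ∑ a ∈ A.filter (fun a => c a = m),
              (1 : ℝ) / (A.filter (fun b => c b = c a)).card =
              ∑ a ∈ A.filter (fun a => c a = m),
              (1 : ℝ) / (A.filter (fun b => c b = m)).card := by
            refine Finset.sum_congr rfl (fun a ha => ?_)
            rw [(Finset.mem_filter.1 ha).2]
          rw [h5, Finset.sum_const, nsmul_eq_mul]
          by_cases h6 : ((A.filter (fun b => c b = m)).card : ℝ) = 0
          · rw [h6]; simp
          · rw [mul_one_div_cancel h6]
      _ = M.card := by simp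
  unfold ent
  rw [div_le_iff₀ hApos]
  calc ∑ a ∈ A, (Real.log A.card - Real.log (cl A r a))
      ≤ ∑ a ∈ A, (Real.log M.card + (A.card / (cl A r a * M.card) - 1)) := by
        refine Finset.sum_le_sum (fun a ha => ?_)
        have hpr : (0 : ℝ) < cl A r a := by exact_mod_cast cl_pos hr ha
        have h7 := Real.log_le_sub_one_of_pos
          (x := (A.card : ℝ) / (cl A r a * M.card)) (by positivity)
        rw [Real.log_div hApos.ne' (by positivity), Real.log_mul hpr.ne' hMpos.ne'] at h7
        linarith
    _ = A.card * Real.log M.card + (A.card * (∑ a ∈ A, (1 : ℝ) / cl A r a) / M.card - A.card) := by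
        rw [Finset.sum_add_distrib, Finset.sum_sub_distrib, Finset.mul_sum, Finset.sum_div]
        simp only [Finset.sum_const, nsmul_eq_mul, mul_one]
        congr 2
        refine Finset.sum_congr rfl (fun a ha => ?_)
        have hpr : (0 : ℝ) < cl A r a := by exact_mod_cast cl_pos hr ha
        field_simp
    _ ≤ Real.log M.card * A.card := by
        have h8 : A.card * (∑ a ∈ A, (1 : ℝ) / cl A r a) / M.card ≤ A.card := by
          rw [div_le_iff₀ hMpos]
          exact mul_le_mul_of_nonneg_left h1 hApos.le
        linarith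

/-- some class is large -/
theorem exists_large {A : Finset α} {r : α → α → Prop} (hr : Equivalence r) (hA : A.Nonempty) :
    ∃ a ∈ A, (A.card : ℝ) * Real.exp (-ent A r) ≤ cl A r a := by
  by_contra hcon
  push Not at hcon
  have hApos : (0 : ℝ) < A.card := by exact_mod_cast hA.card_pos
  have h1 : ∀ a ∈ A, ent A r < Real.log A.card - Real.log (cl A r a) := by
    intro a ha
    have h2 := hcon a ha
    have hpr : (0 : ℝ) < cl A r a := by exact_mod_cast cl_pos hr ha
    have h3 := Real.log_lt_log hpr h2
    rw [Real.log_mul hApos.ne' (Real.exp_pos _).ne', Real.log_exp] at h3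
    linarith
  have h4 : ∑ _a ∈ A, ent A r < ∑ a ∈ A, (Real.log A.card - Real.log (cl A r a)) :=
    Finset.sum_lt_sum_of_nonempty hA h1
  rw [Finset.sum_const, nsmul_eq_mul] at h4
  have h5 : ent A r * A.card = ∑ a ∈ A, (Real.log A.card - Real.log (cl A r a)) := by
    unfold ent
    field_simp
  linarith

end H693.EQ
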