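import Pool.Agent.H693.EQ.Main

/-!
# Finite sets which are almost invariant under a group of automorphisms: subgroups
-/

set_option autoImplicit false
open Finset TensorProduct
open scoped Classical Pointwise nonZeroDivisors

namespace H693.EQ

universe u v

variable {Γ : Type u} [AddCommGroup Γ] {G : Type v} [Group G] [DistribMulAction G Γ]

/-- the map `x ↦ 1 ⊗ x` -/
noncomputable def io (Γ : Type u) [AddCommGroup Γ] : Γ →+ (ℚ ⊗[ℤ] Γ) :=
  (TensorProduct.mk ℤ ℚ Γ 1).toAddMonoidHom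

theorem io_apply (x : Γ) : io Γ x = (1 : ℚ) ⊗ₜ[ℤ] x := rfl

/-- the action of `g` as an integral linear map -/
def actZ (Γ : Type u) [AddCommGroup Γ] {G : Type v} [Group G] [DistribMulAction G Γ] (g : G) :
    Γ →ₗ[ℤ] Γ := (DistribSMul.toAddMonoidHom Γ g).toIntLinearMap

theorem actZ_apply (g : G) (x : Γ) : actZ Γ g x = g • x := rfl

theorem actZ_mul (g h : G) : actZ Γ (g * h) = (actZ Γ g).comp (actZ Γ h) := by
  ext x
  simp only [actZ_apply, LinearMap.comp_apply, mul_smul]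

theorem actZ_one : actZ Γ (1 : G) = LinearMap.id := by
  ext x
  simp only [actZ_apply, LinearMap.id_apply, one_smul]

/-- the action on the rational vector space -/
noncomputable def rh (Γ : Type u) [AddCommGroup Γ] {G : Type v} [Group G] [DistribMulAction G Γ] :
    G →* ((ℚ ⊗[ℤ] Γ) ≃ₗ[ℚ] (ℚ ⊗[ℤ] Γ)) where
  toFun g := LinearEquiv.ofLinearMap ((actZ Γ g).baseChange ℚ) ((actZ Γ g⁻¹).baseChange ℚ)
    (by rw [← LinearMap.baseChange_comp, ← actZ_mul, mul_inv_cancel, actZ_one,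
          LinearMap.baseChange_id])
    (by rw [← LinearMap.baseChange_comp, ← actZ_mul, inv_mul_cancel, actZ_one,
          LinearMap.baseChange_id])
  map_one' := by
    apply LinearEquiv.toLinearMap_injective
    change (actZ Γ (1 : G)).baseChange ℚ = LinearMap.id
    rw [actZ_one, LinearMap.baseChange_id]
  map_mul' g h := by
    apply LinearEquiv.toLinearMap_injective
    change (actZ Γ (g * h)).baseChange ℚ = ((actZ Γ g).baseChange ℚ).comp ((actZ Γ h).baseChange ℚ)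
    rw [actZ_mul, LinearMap.baseChange_comp]

theorem rh_io (g : G) (x : Γ) : io Γ (g • x) = rh Γ g (io Γ x) := by
  change _ = (actZ Γ g).baseChange ℚ ((1 : ℚ) ⊗ₜ[ℤ] x)
  rw [LinearMap.baseChange_tmul]
  rfl

theorem main_group {K : ℝ} {A : Finset Γ} (hA : A.Nonempty)
    (hK : ∀ g : G, ((A + A.image (fun x => g • x)).card : ℝ) ≤ K * A.card) :
    ∃ Δ : AddSubgroup Γ, (∀ g : G, ∀ x ∈ Δ, g • x ∈ Δ) ∧
      (∀ n : ℕ, n ≠ 0 → ∀ x : Γ, n • x ∈ Δ → x ∈ Δ) ∧
      (∀ (n : ℕ) (v : Fin n → Γ), (∀ i, v i ∈ Δ) → LinearIndependent ℤ v →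
        (n : ℝ) ≤ 1702 * Real.log (2 * K)) ∧
      ∃ T ⊆ A, (T.card : ℝ) ≤ (2 * K) ^ 1704 ∧ ∀ a ∈ A, ∃ t ∈ T, a - t ∈ Δ := by
  obtain ⟨W, hWfd, hWinv, hWrank, T, hTA, hT, hcov⟩ := main_V (rh Γ) (io Γ) rh_io hA hK
  refine ⟨W.toAddSubgroup.comap (io Γ), ?_, ?_, ?_, T, hTA, hT, ?_⟩
  · intro g x hx
    rw [AddSubgroup.mem_comap] at hx ⊢
    change io Γ (g • x) ∈ W
    rw [rh_io, ← hWinv g]
    exact ⟨io Γ x, hx, rfl⟩
  · intro n hn x hx
    rw [AddSubgroup.mem_comap] at hx ⊢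
    change io Γ (n • x) ∈ W at hx
    change io Γ x ∈ W
    rw [map_nsmul, ← Nat.cast_smul_eq_nsmul ℚ] at hx
    exact (W.smul_mem_iff (by exact_mod_cast hn)).1 hx
  · intro n v hv hli
    have h1 : LinearIndependent ℚ ((TensorProduct.mk ℤ ℚ Γ 1) ∘ v) :=
      LinearIndependent.of_isLocalizedModule ℚ ℤ⁰ (TensorProduct.mk ℤ ℚ Γ 1) hli
    have hmem : ∀ i, (TensorProduct.mk ℤ ℚ Γ 1) (v i) ∈ W := fun i => hv i
    have h2 : LinearIndependent ℚ (fun i => (⟨(TensorProduct.mk ℤ ℚ Γ 1) (v i), hmem i⟩ : W)) := by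
      apply LinearIndependent.of_comp W.subtype
      exact h1
    have h3 := h2.fintype_card_le_finrank
    rw [Fintype.card_fin] at h3
    exact le_trans (by exact_mod_cast h3) hWrank
  · intro a ha
    obtain ⟨t, ht, h⟩ := hcov a ha
    refine ⟨t, ht, ?_⟩
    rw [AddSubgroup.mem_comap, map_sub]
    exact h

theorem small_group {K : ℝ} {A : Finset Γ} (hA : A.Nonempty)
    (hK : ∀ g : G, ((A + A.image (fun x => g • x)).card : ℝ) ≤ K * A.card)
    (hrank : ∀ x : Γ, x ≠ 0 → ∃ (n : ℕ) (g : Fin n → G), 1702 * Real.log (2 * K) < n ∧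
      LinearIndependent ℤ (fun i => g i • x)) :
    (A.card : ℝ) ≤ (2 * K) ^ 1704 := by
  obtain ⟨Δ, hinv, -, hr, T, hTA, hT, hcov⟩ := main_group (G := G) hA hK
  have hΔ : ∀ x ∈ Δ, x = 0 := by
    intro x hx
    by_contra h0
    obtain ⟨n, g, hn, hli⟩ := hrank x h0
    have := hr n (fun i => g i • x) (fun i => hinv (g i) x hx) hli
    linarith
  have hsub : A ⊆ T := by
    intro a ha
    obtain ⟨t, ht, h⟩ := hcov a ha
    have := hΔ _ h
    rw [sub_eq_zero] at this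
    rw [this]
    exact ht
  exact le_trans (by exact_mod_cast Finset.card_le_card hsub) hT

end H693.EQ
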