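import Pool.Agent.H693.EQ.Neu
import Pool.Graph.R_seed8.H137R2.Weak.Final

/-!
# Finite sets which are almost invariant under a group of automorphisms

The weak polynomial Freiman-Ruzsa theorem with an invariant subspace.
-/

set_option autoImplicit false
open Finset
open scoped Classical Pointwise

namespace H693.EQ

variable {Γ : Type*} [AddCommGroup Γ] {G : Type*} [Group G] [DistribMulAction G Γ]
  {V : Type*} [AddCommGroup V] [Module ℚ V]

theorem iota_tors (ι : Γ →+ V) {x : Γ} {n : ℕ} (hn : n ≠ 0) (h : n • x = 0) : ι x = 0 := by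
  have h1 : (n : ℚ) • ι x = 0 := by
    rw [Nat.cast_smul_eq_nsmul, ← map_nsmul, h, map_zero]
  rcases smul_eq_zero.1 h1 with h2 | h2
  · exact absurd (by exact_mod_cast h2) hn
  · exact h2

theorem main_V (ρ : G →* (V ≃ₗ[ℚ] V)) (ι : Γ →+ V) (hι : ∀ (g : G) (x : Γ), ι (g • x) = ρ g (ι x))
    {K : ℝ} {A : Finset Γ} (hA : A.Nonempty)
    (hK : ∀ g : G, ((A + A.image (fun x => g • x)).card : ℝ) ≤ K * A.card) :
    ∃ W : Submodule ℚ V, FiniteDimensional ℚ W ∧ (∀ g, W.map (ρ g : V →ₗ[ℚ] V) = W) ∧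
      (Module.finrank ℚ W : ℝ) ≤ 1702 * Real.log (2 * K) ∧
      ∃ T ⊆ A, (T.card : ℝ) ≤ (2 * K) ^ 1704 ∧ ∀ a ∈ A, ∃ t ∈ T, ι a - ι t ∈ W := by
  have hApos : (0 : ℝ) < A.card := by exact_mod_cast hA.card_pos
  have him1 : A.image (fun x => (1 : G) • x) = A := by
    simp
  have hAA : ((A + A).card : ℝ) ≤ K * A.card := by
    have := hK 1
    rwa [him1] at this
  have hK1 : 1 ≤ K := by
    have h1 : (A.card : ℝ) ≤ (A + A).card := by
      exact_mod_cast Finset.card_le_card_add_right hA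
    nlinarith
  have hlogK : 0 ≤ Real.log K := Real.log_nonneg hK1
  have hlog2 : 0.69 < Real.log 2 := by linarith [Real.log_two_gt_d9]
  have hlog2K : Real.log (2 * K) = Real.log 2 + Real.log K :=
    Real.log_mul (by norm_num) (by linarith)
  obtain ⟨A0, hA0A, hA0, hAA0, hfin⟩ := reduce ρ ι hι hA hK
  have hA0pos : (0 : ℝ) < A0.card := by exact_mod_cast hA0.card_pos
  -- doubling of `A0`
  have hD0 : ((A0 + A0).card : ℝ) ≤ K ^ 2 * A0.card := by
    calc ((A0 + A0).card : ℝ) ≤ (A + A).card := by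
          exact_mod_cast Finset.card_le_card (Finset.add_subset_add hA0A hA0A)
      _ ≤ K * A.card := hAA
      _ ≤ K * (K * A0.card) := mul_le_mul_of_nonneg_left hAA0 (by linarith)
      _ = K ^ 2 * A0.card := by ring
  obtain ⟨P, S, T, hPfin, -, -, hS, hTA0, hT, hcov⟩ := H137.Weak.weak_marton hA0 hD0
  have hlogK2 : Real.log (K ^ 2) = 2 * Real.log K := by
    rw [Real.log_pow]; norm_num
  rw [hlogK2] at hS
  have hT' : (T.card : ℝ) ≤ K ^ 370 := by
    refine hT.trans (le_of_eq ?_)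
    rw [← pow_mul]
  -- the subspace
  set V0 : Submodule ℚ V := Submodule.span ℚ ((S.image ι : Finset V) : Set V) with hV0
  have hV0fd : FiniteDimensional ℚ V0 := FiniteDimensional.span_finset ℚ _
  have hV0rank : (Module.finrank ℚ V0 : ℝ) ≤ 960 * Real.log K + 1 := by
    have h1 : Module.finrank ℚ V0 ≤ (S.image ι).card := finrank_span_finset_le_card _
    have h2 : (S.image ι).card ≤ S.card := Finset.card_image_le
    have h3 : (Module.finrank ℚ V0 : ℝ) ≤ S.card := by exact_mod_cast h1.trans h2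
    linarith
  have hsub : P ⊔ AddSubgroup.closure (S : Set Γ) ≤ V0.toAddSubgroup.comap ι := by
    apply sup_le
    · intro p hp
      have h1 : ∃ n : ℕ, n ≠ 0 ∧ n • p = 0 := by
        have h2 : IsOfFinAddOrder (⟨p, hp⟩ : P) := isOfFinAddOrder_of_finite _
        refine ⟨addOrderOf (⟨p, hp⟩ : P), h2.addOrderOf_pos.ne', ?_⟩
        have h3 := addOrderOf_nsmul_eq_zero (⟨p, hp⟩ : P)
        exact congrArg Subtype.val h3
      obtain ⟨n, hn, hn'⟩ := h1
      rw [AddSubgroup.mem_comap, iota_tors ι hn hn']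
      exact V0.zero_mem
    · rw [AddSubgroup.closure_le]
      intro s hs
      rw [SetLike.mem_coe, AddSubgroup.mem_comap]
      apply Submodule.subset_span
      exact Finset.mem_coe.2 (Finset.mem_image_of_mem ι hs)
  have hcov' : ∀ a ∈ A0, ∃ t ∈ T, ι a - ι t ∈ V0 := by
    intro a ha
    obtain ⟨t, ht, o, ⟨m, hm, hmo⟩, hmem⟩ := hcov a ha
    refine ⟨t, ht, ?_⟩
    have h1 : ι (a - t - o) ∈ V0 := hsub hmem
    have h2 : ι o = 0 := iota_tors ι (by rintro rfl; exact absurd hm (by decide)) hmo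
    rw [map_sub, map_sub, h2, sub_zero] at h1
    exact h1
  -- entropy bound for all `g`
  have hent : ∀ g : G, ent A0 (rel ρ ι g V0) ≤ 742 * Real.log K := by
    intro g
    have hgD : ((A0.image (fun x => g • x) + A0).card : ℝ) ≤ K ^ 2 * A0.card := by
      calc ((A0.image (fun x => g • x) + A0).card : ℝ)
          ≤ (A + A.image (fun x => g • x)).card := by
            rw [add_comm]
            exact_mod_cast Finset.card_le_card
              (Finset.add_subset_add hA0A (Finset.image_subset_image hA0A))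
        _ ≤ K * A.card := hK g
        _ ≤ K * (K * A0.card) := mul_le_mul_of_nonneg_left hAA0 (by linarith)
        _ = K ^ 2 * A0.card := by ring
    obtain ⟨F, -, hFc, hFcov⟩ := Finset.ruzsa_covering_add hA0 hgD
    have hlab : ∀ a ∈ A0, ∃ p ∈ F ×ˢ (T ×ˢ T), ι (g • a) - (ι p.1 + ι p.2.1 - ι p.2.2) ∈ V0 := by
      intro a ha
      have h1 : g • a ∈ F + (A0 - A0) := hFcov (Finset.mem_image_of_mem _ ha)
      obtain ⟨f, hf, y, hy, h2⟩ := Finset.mem_add.1 h1
      obtain ⟨b, hb, b', hb', h3⟩ := Finset.mem_sub.1 hy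
      obtain ⟨t, ht, h4⟩ := hcov' b hb
      obtain ⟨t', ht', h5⟩ := hcov' b' hb'
      refine ⟨(f, t, t'), Finset.mem_product.2 ⟨hf, Finset.mem_product.2 ⟨ht, ht'⟩⟩, ?_⟩
      have h6 : ι (g • a) - (ι f + ι t - ι t') = (ι b - ι t) - (ι b' - ι t') := by
        rw [← h2, ← h3, map_add, map_sub]
        abel
      rw [h6]
      exact V0.sub_mem h4 h5
    have hlab' : ∀ a : Γ, ∃ p : Γ × Γ × Γ, a ∈ A0 → (p ∈ F ×ˢ (T ×ˢ T) ∧
        ι (g • a) - (ι p.1 + ι p.2.1 - ι p.2.2) ∈ V0) := by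
      intro a
      by_cases ha : a ∈ A0
      · obtain ⟨p, hp, hp'⟩ := hlab a ha
        exact ⟨p, fun _ => ⟨hp, hp'⟩⟩
      · exact ⟨(0, 0, 0), fun h => absurd h ha⟩
    choose c hc using hlab'
    have h7 := ent_le_log (rel_equiv ρ ι g V0) hA0 (F ×ˢ (T ×ˢ T)) c (fun a ha => (hc a ha).1)
      (by
        intro a ha b hb hab
        unfold rel
        rw [map_sub, ← hι, ← hι]
        have h8 := (hc a ha).2
        have h9 := (hc b hb).2
        rw [hab] at h8
        have h10 := V0.sub_mem h9 h8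
        rwa [sub_sub_sub_cancel_right] at h10)
    refine h7.trans ?_
    have hMpos : (0 : ℝ) < ((F ×ˢ (T ×ˢ T)).card : ℝ) := by
      obtain ⟨a, ha⟩ := hA0
      exact_mod_cast Finset.card_pos.2 ⟨_, (hc a ha).1⟩
    have h11 : ((F ×ˢ (T ×ˢ T)).card : ℝ) ≤ K ^ 742 := by
      rw [Finset.card_product, Finset.card_product]
      push_cast
      calc (F.card : ℝ) * (T.card * T.card) ≤ K ^ 2 * (K ^ 370 * K ^ 370) := by
            apply mul_le_mul hFc _ (by positivity) (by positivity)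
            exact mul_le_mul hT' hT' (by positivity) (by positivity)
        _ = K ^ 742 := by rw [← pow_add, ← pow_add]
    calc Real.log ((F ×ˢ (T ×ˢ T)).card : ℝ) ≤ Real.log (K ^ 742) := Real.log_le_log hMpos h11
      _ = 742 * Real.log K := by rw [Real.log_pow]; norm_num
  obtain ⟨W, hWfd, hWinv, hWle⟩ := exists_inv ρ ι A0 hA0 hfin V0 hV0fd _ hent
  have hent0 : 0 ≤ ent A0 (rel ρ ι 1 W) := ent_nonneg (rel_equiv ρ ι 1 W)
  have htot : ent A0 (rel ρ ι 1 W) + (Module.finrank ℚ W : ℝ) ≤ 1702 * Real.log (2 * K) := by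
    rw [hlog2K]
    nlinarith
  have hrk0 : (0 : ℝ) ≤ (Module.finrank ℚ W : ℝ) := by positivity
  refine ⟨W, hWfd, hWinv, by linarith, ?_⟩
  obtain ⟨a0, ha0, hbig⟩ := exists_large (rel_equiv ρ ι 1 W) hA0
  set B : Finset Γ := A0.filter (fun b => rel ρ ι 1 W a0 b) with hB
  have hBcard : (cl A0 (rel ρ ι 1 W) a0 : ℝ) = B.card := rfl
  rw [hBcard] at hbig
  have h2Kpos : 0 < 2 * K := by linarith
  have hexp : Real.exp (1702 * Real.log (2 * K)) = (2 * K) ^ 1702 := by
    have : (1702 : ℝ) * Real.log (2 * K) = ((1702 : ℕ) : ℝ) * Real.log (2 * K) := by norm_num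
    rw [this, Real.exp_nat_mul, Real.exp_log h2Kpos]
  have hB1 : (A0.card : ℝ) ≤ (2 * K) ^ 1702 * B.card := by
    have h1 : Real.exp (-(1702 * Real.log (2 * K))) ≤ Real.exp (-ent A0 (rel ρ ι 1 W)) := by
      apply Real.exp_le_exp.2
      linarith
    have h2 : (A0.card : ℝ) * Real.exp (-(1702 * Real.log (2 * K))) ≤ B.card :=
      (mul_le_mul_of_nonneg_left h1 hA0pos.le).trans hbig
    rw [Real.exp_neg, hexp, ← div_eq_mul_inv, div_le_iff₀ (by positivity)] at h2
    linarith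
  have hBne : B.Nonempty := by
    rw [← Finset.card_pos]
    by_contra h
    have h0 : B.card = 0 := by omega
    rw [h0, Nat.cast_zero, mul_zero] at hB1
    linarith
  have hBA : B ⊆ A := (Finset.filter_subset _ _).trans hA0A
  have hAB : ((A + B).card : ℝ) ≤ (2 * K) ^ 1704 * B.card := by
    have hBpos : (0 : ℝ) < B.card := by exact_mod_cast hBne.card_pos
    calc ((A + B).card : ℝ) ≤ (A + A).card := by
          exact_mod_cast Finset.card_le_card (Finset.add_subset_add (subset_refl A) hBA)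
      _ ≤ K * A.card := hAA
      _ ≤ K * (K * A0.card) := mul_le_mul_of_nonneg_left hAA0 (by linarith)
      _ ≤ K * (K * ((2 * K) ^ 1702 * B.card)) := by
          apply mul_le_mul_of_nonneg_left _ (by linarith)
          exact mul_le_mul_of_nonneg_left hB1 (by linarith)
      _ = K ^ 2 * ((2 * K) ^ 1702 * B.card) := by rw [sq, mul_assoc]
      _ ≤ (2 * K) ^ 2 * ((2 * K) ^ 1702 * B.card) := by
          apply mul_le_mul_of_nonneg_right _ (by positivity)
          apply pow_le_pow_left₀ (by linarith)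
          linarith
      _ = (2 * K) ^ 1704 * B.card := by rw [← mul_assoc, ← pow_add]
  obtain ⟨F, hFA, hFc, hFcov⟩ := Finset.ruzsa_covering_add hBne hAB
  refine ⟨F, hFA, hFc, ?_⟩
  intro a ha
  obtain ⟨f, hf, y, hy, h2⟩ := Finset.mem_add.1 (hFcov ha)
  obtain ⟨b, hb, b', hb', h3⟩ := Finset.mem_sub.1 hy
  refine ⟨f, hf, ?_⟩
  have h4 : rel ρ ι 1 W a0 b := (Finset.mem_filter.1 hb).2
  have h5 : rel ρ ι 1 W a0 b' := (Finset.mem_filter.1 hb').2
  unfold rel at h4 h5
  have h6 : ρ 1 (ι b - ι a0) = ι b - ι a0 := by rw [map_one]; rfl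
  have h7 : ρ 1 (ι b' - ι a0) = ι b' - ι a0 := by rw [map_one]; rfl
  rw [h6] at h4
  rw [h7] at h5
  have h8 : ι a - ι f = (ι b - ι a0) - (ι b' - ι a0) := by
    rw [← h2, ← h3, map_add, map_sub]
    abel
  rw [h8]
  exact W.sub_mem h4 h5

end H693.EQ
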