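import Pool.Agent.H693.EQ.Avg

/-!
# Reduction to finite orbits

If `|A + g A| ≤ K |A|` for all `g` in a group `G`, then, by the lemma of B. H. Neumann, a proportion
at least `1 / K` of `A` has differences with stabilisers of finite index.
-/

set_option autoImplicit false
open Finset
open scoped Classical Pointwise

namespace H693.EQ

variable {Γ : Type*} [AddCommGroup Γ] {G : Type*} [Group G] [DistribMulAction G Γ]
  {V : Type*} [AddCommGroup V] [Module ℚ V]

theorem stab_zero (ρ : G →* (V ≃ₗ[ℚ] V)) : (stab ρ (0 : V)).FiniteIndex := by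
  have : stab ρ (0 : V) = ⊤ := by
    rw [Subgroup.eq_top_iff']
    intro g
    rw [mem_stab, map_zero]
  rw [this]
  infer_instance

theorem stab_neg (ρ : G →* (V ≃ₗ[ℚ] V)) (v : V) : stab ρ (-v) = stab ρ v := by
  ext g
  rw [mem_stab, mem_stab, map_neg, neg_inj]

theorem stab_add (ρ : G →* (V ≃ₗ[ℚ] V)) (v w : V) (hv : (stab ρ v).FiniteIndex)
    (hw : (stab ρ w).FiniteIndex) : (stab ρ (v + w)).FiniteIndex := by
  have h1 : (stab ρ v ⊓ stab ρ w).FiniteIndex := inferInstance
  refine Subgroup.finiteIndex_of_le (H := stab ρ v ⊓ stab ρ w) ?_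
  intro g hg
  rw [Subgroup.mem_inf, mem_stab, mem_stab] at hg
  rw [mem_stab, map_add, hg.1, hg.2]

/-- a group element that moves all differences with infinite orbit away -/
theorem exists_mover (ρ : G →* (V ≃ₗ[ℚ] V)) (D : Finset V) :
    ∃ g : G, ∀ d ∈ D, ¬ (stab ρ d).FiniteIndex → ρ g d ∉ D := by
  by_contra hcon
  push Not at hcon
  set s : Finset (V × V) := (D ×ˢ D).filter
    (fun p => ¬ (stab ρ p.1).FiniteIndex ∧ ∃ g : G, ρ g p.1 = p.2) with hs
  have hch : ∀ p : V × V, ∃ g : G, (∃ g' : G, ρ g' p.1 = p.2) → ρ g p.1 = p.2 := by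
    intro p
    by_cases h : ∃ g' : G, ρ g' p.1 = p.2
    · obtain ⟨g', hg'⟩ := h
      exact ⟨g', fun _ => hg'⟩
    · exact ⟨1, fun h' => absurd h' h⟩
  choose c hc using hch
  have hcov : ⋃ p ∈ s, (c p) • ((stab ρ p.1 : Subgroup G) : Set G) = Set.univ := by
    rw [Set.eq_univ_iff_forall]
    intro g
    obtain ⟨d, hd, hdi, hgd⟩ := hcon g
    rw [Set.mem_iUnion₂]
    refine ⟨(d, ρ g d), ?_, ?_⟩
    · rw [hs, Finset.mem_filter, Finset.mem_product]
      exact ⟨⟨hd, hgd⟩, hdi, g, rfl⟩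
    · rw [mem_leftCoset_iff, SetLike.mem_coe, mem_stab, map_mul, map_inv]
      have h1 : ρ (c (d, ρ g d)) d = ρ g d := hc (d, ρ g d) ⟨g, rfl⟩
      have h2 : ((ρ (c (d, ρ g d)))⁻¹ : V ≃ₗ[ℚ] V) (ρ (c (d, ρ g d)) d) = d :=
        LinearEquiv.symm_apply_apply (ρ (c (d, ρ g d))) d
      calc ((ρ (c (d, ρ g d)))⁻¹ : V ≃ₗ[ℚ] V) (ρ g d)
          = ((ρ (c (d, ρ g d)))⁻¹ : V ≃ₗ[ℚ] V) (ρ (c (d, ρ g d)) d) := by rw [h1]
        _ = d := h2
  obtain ⟨p, hp, hpf⟩ := Subgroup.exists_finiteIndex_of_leftCoset_cover hcov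
  rw [hs, Finset.mem_filter] at hp
  exact hp.2.1 hpf

theorem reduce (ρ : G →* (V ≃ₗ[ℚ] V)) (ι : Γ →+ V) (hι : ∀ (g : G) (x : Γ), ι (g • x) = ρ g (ι x))
    {K : ℝ} {A : Finset Γ} (hA : A.Nonempty)
    (hK : ∀ g : G, ((A + A.image (fun x => g • x)).card : ℝ) ≤ K * A.card) :
    ∃ A0 ⊆ A, A0.Nonempty ∧ (A.card : ℝ) ≤ K * A0.card ∧
      ∀ a ∈ A0, ∀ b ∈ A0, (stab ρ (ι b - ι a)).FiniteIndex := by
  have hApos : (0 : ℝ) < A.card := by exact_mod_cast hA.card_pos
  set r : Γ → Γ → Prop := fun a b => (stab ρ (ι b - ι a)).FiniteIndex with hr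
  have hrE : Equivalence r := by
    refine ⟨fun a => ?_, fun {a b} h => ?_, fun {a b c} h h' => ?_⟩
    · simp only [hr, sub_self]
      exact stab_zero ρ
    · simp only [hr] at h ⊢
      rw [← neg_sub, stab_neg]
      exact h
    · simp only [hr] at h h' ⊢
      have h1 : ι c - ι a = (ι c - ι b) + (ι b - ι a) := by abel
      rw [h1]
      exact stab_add ρ _ _ h' h
  let S : Setoid Γ := ⟨r, hrE⟩
  set C : Finset (Quotient S) := A.image (fun a => (Quotient.mk S a)) with hC
  have hrep : ∀ q : Quotient S, ∃ a : Γ, q ∈ C → (a ∈ A ∧ Quotient.mk S a = q) := by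
    intro q
    by_cases h : q ∈ C
    · obtain ⟨a, ha, ha'⟩ := Finset.mem_image.1 h
      exact ⟨a, fun _ => ⟨ha, ha'⟩⟩
    · exact ⟨hA.choose, fun h' => absurd h' h⟩
  choose c hc using hrep
  obtain ⟨g, hg⟩ := exists_mover ρ ((A ×ˢ A).image (fun p => ι p.2 - ι p.1))
  have hmem : ∀ a ∈ A, ∀ b ∈ A, ι b - ι a ∈ (A ×ˢ A).image (fun p => ι p.2 - ι p.1) := by
    intro a ha b hb
    exact Finset.mem_image.2 ⟨(a, b), Finset.mem_product.2 ⟨ha, hb⟩, rfl⟩
  have hcard : C.card * A.card ≤ (A + A.image (fun x => g • x)).card := by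
    rw [← Finset.card_product]
    apply Finset.card_le_card_of_injOn (fun p => c p.1 + g • p.2)
    · intro p hp
      rw [Finset.coe_product, Set.mem_prod] at hp
      exact Finset.add_mem_add (hc p.1 hp.1).1 (Finset.mem_image_of_mem _ hp.2)
    · rintro ⟨q1, a1⟩ hp1 ⟨q2, a2⟩ hp2 heq
      rw [Finset.coe_product, Set.mem_prod] at hp1 hp2
      have hq1 := hc q1 hp1.1
      have hq2 := hc q2 hp2.1
      have ha1 : a1 ∈ A := hp1.2
      have ha2 : a2 ∈ A := hp2.2
      have heq' : c q1 + g • a1 = c q2 + g • a2 := heq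
      have h1 : ρ g (ι a2 - ι a1) = ι (c q1) - ι (c q2) := by
        rw [map_sub, ← hι, ← hι, sub_eq_sub_iff_add_eq_add, ← map_add, ← map_add]
        congr 1
        rw [heq']
        abel
      have h2 : (stab ρ (ι a2 - ι a1)).FiniteIndex := by
        by_contra h3
        apply hg _ (hmem a1 ha1 a2 ha2) h3
        rw [h1]
        exact hmem _ hq2.1 _ hq1.1
      have h3 : (stab ρ (ι (c q1) - ι (c q2))).FiniteIndex := by
        rw [← h1]
        have h4 : stab ρ (ρ g (ι a2 - ι a1)) = (stab ρ (ι a2 - ι a1)).map (MulAut.conj g).toMonoidHom := by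
          ext x
          rw [mem_stab, Subgroup.mem_map_equiv, mem_stab]
          have h5 : ((MulAut.conj g).symm x) = g⁻¹ * x * g := rfl
          rw [h5, map_mul, map_mul, map_inv]
          change ρ x (ρ g (ι a2 - ι a1)) = ρ g (ι a2 - ι a1) ↔
            (ρ g)⁻¹ (ρ x (ρ g (ι a2 - ι a1))) = ι a2 - ι a1
          constructor
          · intro h6
            rw [h6]
            exact LinearEquiv.symm_apply_apply _ _
          · intro h6
            calc ρ x (ρ g (ι a2 - ι a1))
                = ρ g ((ρ g)⁻¹ (ρ x (ρ g (ι a2 - ι a1)))) :=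
                  (LinearEquiv.apply_symm_apply (ρ g) _).symm
              _ = ρ g (ι a2 - ι a1) := by rw [h6]
        rw [h4]
        constructor
        have h8 : ((stab ρ (ι a2 - ι a1)).map (MulAut.conj g).toMonoidHom).index =
            (stab ρ (ι a2 - ι a1)).index :=
          Subgroup.index_map_of_bijective (MulAut.conj g).bijective _
        rw [h8]
        exact h2.index_ne_zero
      have h9 : q1 = q2 := by
        rw [← hq1.2, ← hq2.2]
        exact (Quotient.sound (hrE.symm h3))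
      subst h9
      have h10 : g • a1 = g • a2 := by simpa using heq'
      have h11 : a1 = a2 := smul_left_cancel g h10
      rw [h11]
  have hCne : C.Nonempty := hA.image _
  have hCpos : (0 : ℝ) < C.card := by exact_mod_cast hCne.card_pos
  have hCK : (C.card : ℝ) ≤ K := by
    have h1 : (C.card : ℝ) * A.card ≤ K * A.card := by
      refine le_trans ?_ (hK g)
      exact_mod_cast hcard
    exact le_of_mul_le_mul_right h1 hApos
  obtain ⟨q, hq, hqb⟩ := Finset.exists_le_card_fiber_of_nsmul_le_card_of_maps_to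
    (s := A) (t := C) (f := fun a => (Quotient.mk S a)) (b := (A.card : ℝ) / C.card)
    (fun a ha => Finset.mem_image_of_mem _ ha) hCne (by
      rw [nsmul_eq_mul, mul_div_cancel₀ _ hCpos.ne'])
  refine ⟨A.filter (fun a => (Quotient.mk S a) = q), Finset.filter_subset _ _, ?_, ?_, ?_⟩
  · rw [← Finset.card_pos]
    have : (0 : ℝ) < (A.card : ℝ) / C.card := by positivity
    have h2 := this.trans_le hqb
    exact_mod_cast h2
  · rw [div_le_iff₀ hCpos] at hqb
    calc (A.card : ℝ) ≤ _ := hqb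
      _ ≤ _ := by
        rw [mul_comm]
        exact mul_le_mul_of_nonneg_right hCK (by positivity)
  · intro a ha b hb
    rw [Finset.mem_filter] at ha hb
    exact Quotient.exact (s := S) (ha.2.trans hb.2.symm)

end H693.EQ
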